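import Pool.Agent.H97.RL.Targets
import Pool.Agent.H70.RKS.CN2

/-!
# Row BLA of the board rlm_modules: volumes of Hamming balls
-/

set_option autoImplicit false

namespace Pool.Agent.H68.RLM

open Finset Pool.Agent.H97.RK Pool.Agent.H97.RL

theorem card_ball_eq (n a : ℕ) : (H70.RKS.ball n a).card = bl n a := by
  unfold H70.RKS.ball bl
  have e : ((univ : Finset (Finset (Fin n))).filter fun B => B.card ≤ a) =
      (range (a + 1)).biUnion fun i => (univ : Finset (Fin n)).powersetCard i := by
    ext B
    rw [mem_filter, mem_biUnion]
    constructor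
    · rintro ⟨-, hB⟩
      exact ⟨B.card, mem_range.2 (by omega), mem_powersetCard.2 ⟨subset_univ _, rfl⟩⟩
    · rintro ⟨i, hi, hB⟩
      rw [mem_powersetCard] at hB
      rw [mem_range] at hi
      exact ⟨mem_univ _, by omega⟩
  rw [e, card_biUnion]
  · refine Finset.sum_congr rfl fun i _ => ?_
    rw [card_powersetCard, card_univ, Fintype.card_fin]
  · intro i _ j _ hij
    exact pairwise_disjoint_powersetCard _ hij

theorem pf_BLA : T_BLA := by
  classical
  refine ⟨fun n a b => ?_, fun n a b hab => ?_, fun n a => ?_⟩
  · rw [← card_ball_eq n (a + b), ← card_ball_eq n a, ← card_ball_eq n b, ← card_product]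
    have h : H70.RKS.ball n (a + b) ⊆
        (H70.RKS.ball n a ×ˢ H70.RKS.ball n b).image fun p => p.1 ∪ p.2 := by
      intro B hB
      unfold H70.RKS.ball at hB
      rw [mem_filter] at hB
      obtain ⟨B1, h1, h2⟩ := exists_subset_card_eq (min_le_right a B.card)
      rw [mem_image]
      refine ⟨(B1, B \ B1), ?_, ?_⟩
      · rw [mem_product]
        unfold H70.RKS.ball
        rw [mem_filter, mem_filter]
        refine ⟨⟨mem_univ _, ?_⟩, mem_univ _, ?_⟩
        · show B1.card ≤ a
          rw [h2]
          exact min_le_left _ _
        · show (B \ B1).card ≤ b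
          rw [card_sdiff_of_subset h1, h2]
          have := hB.2
          omega
      · show B1 ∪ B \ B1 = B
        exact union_sdiff_of_subset h1
    exact (card_le_card h).trans card_image_le
  · unfold bl
    exact sum_le_sum_of_subset (range_subset_range.2 (by omega))
  · unfold bl
    have h := single_le_sum (f := fun i => n.choose i) (s := range (a + 1))
      (fun i _ => Nat.zero_le _) (mem_range.2 (Nat.succ_pos a))
    simpa using h

end Pool.Agent.H68.RLM
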